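import Mathlib

open MvPolynomial Finsupp

namespace Pool.Agent.Lib.P6ea067

/-- monomial exponent `x^i y^j` -/
private noncomputable def ex (i j : ℕ) : Fin 2 →₀ ℕ := single 0 i + single 1 j

private lemma ex_apply0 (i j : ℕ) : ex i j 0 = i := by simp [ex]
private lemma ex_apply1 (i j : ℕ) : ex i j 1 = j := by simp [ex]

private lemma ex_inj {i j k l : ℕ} : ex i j = ex k l ↔ i = k ∧ j = l := by
  constructor
  · intro h
    have h0 := DFunLike.congr_fun h 0
    have h1 := DFunLike.congr_fun h 1
    rw [ex_apply0, ex_apply0] at h0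
    rw [ex_apply1, ex_apply1] at h1
    exact ⟨h0, h1⟩
  · rintro ⟨rfl, rfl⟩; rfl

private lemma XX_eq {R : Type*} [CommRing R] (i j : ℕ) :
    (X 0 ^ i * X 1 ^ j : MvPolynomial (Fin 2) R) = monomial (ex i j) 1 := by
  rw [X_pow_eq_monomial, X_pow_eq_monomial, monomial_mul, one_mul, ex]

private lemma coeff_add_pow {R : Type*} [CommRing R] (n i j : ℕ) :
    coeff (ex i j) ((X 0 + X 1 : MvPolynomial (Fin 2) R) ^ n) =
      if i + j = n then (n.choose i : R) else 0 := by
  classical
  rw [add_pow, coeff_sum]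
  have : ∀ k ∈ Finset.range (n + 1),
      coeff (ex i j) (X 0 ^ k * X 1 ^ (n - k) * ((n.choose k : ℕ) : MvPolynomial (Fin 2) R))
        = if k = i ∧ n - k = j then (n.choose k : R) else 0 := by
    intro k hk
    have : ((n.choose k : ℕ) : MvPolynomial (Fin 2) R) = C (n.choose k : R) := by simp
    rw [this, XX_eq, mul_comm, C_mul_monomial, mul_one, coeff_monomial]
    simp only [ex_inj]
  rw [Finset.sum_congr rfl this]
  by_cases h : i + j = n
  · rw [if_pos h, Finset.sum_eq_single i]
    · rw [if_pos ⟨rfl, by omega⟩]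
    · intro b _ hb
      rw [if_neg (fun h => hb h.1)]
    · intro h'
      exact absurd (Finset.mem_range.2 (by omega)) h'
  · rw [if_neg h]
    apply Finset.sum_eq_zero
    intro k hk
    rw [Finset.mem_range] at hk
    rw [if_neg]
    rintro ⟨rfl, rfl⟩
    omega

private lemma coeff_X0_mul {R : Type*} [CommRing R] (f : MvPolynomial (Fin 2) R) (i j : ℕ) :
    coeff (ex (i + 1) j) (X 0 * f) = coeff (ex i j) f := by
  have : ex (i + 1) j = ex i j + single 0 1 := by
    simp only [ex, single_add]; abel
  rw [this, add_comm, coeff_X_mul]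

private lemma coeff_X1_mul {R : Type*} [CommRing R] (f : MvPolynomial (Fin 2) R) (i j : ℕ) :
    coeff (ex i (j + 1)) (X 1 * f) = coeff (ex i j) f := by
  have : ex i (j + 1) = ex i j + single 1 1 := by
    simp only [ex, single_add]; abel
  rw [this, add_comm, coeff_X_mul]

private lemma coeff_X1_mul_zero {R : Type*} [CommRing R] (f : MvPolynomial (Fin 2) R) (i : ℕ) :
    coeff (ex i 0) (X 1 * f) = 0 := by
  classical
  rw [coeff_X_mul', if_neg]
  simp [ex]

/-- the coefficient of `x^{m+1} y^m` in `(x-y)(x+y)^k` -/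
private lemma coeff_main {R : Type*} [CommRing R] (m k : ℕ) :
    coeff (ex (m + 1) m) ((X 0 - X 1) * (X 0 + X 1 : MvPolynomial (Fin 2) R) ^ k) =
      if k = 2 * m then ((2 * m).choose m : R) - ((2 * m).choose (m + 1) : R) else 0 := by
  rw [sub_mul, coeff_sub, coeff_X0_mul, coeff_add_pow]
  rcases m with _ | m
  · rw [coeff_X1_mul_zero]
    by_cases h : k = 0
    · subst h; simp
    · rw [if_neg (by omega), if_neg (by omega)]; simp
  · rw [coeff_X1_mul, coeff_add_pow]
    by_cases h : k = 2 * (m + 1)
    · subst h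
      rw [if_pos (by ring), if_pos (by ring), if_pos rfl]
    · rw [if_neg (by omega), if_neg (by omega), if_neg h]; simp


private lemma choose_sub_ne_zero {p : ℕ} [Fact p.Prime] {m : ℕ} (hm : 2 * m < p) :
    ((2 * m).choose m : ZMod p) - ((2 * m).choose (m + 1) : ZMod p) ≠ 0 := by
  have hp : p.Prime := Fact.out
  intro h
  have h1 : ((2 * m).choose (m + 1)) * (m + 1) = (2 * m).choose m * m := by
    have := Nat.choose_succ_right_eq (2 * m) m
    rw [this]; congr 1; omega
  have h2 : ((2 * m).choose m : ZMod p) = ((2 * m).choose (m + 1) : ZMod p) := sub_eq_zero.1 h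
  have h3 : ((2 * m).choose (m + 1) : ZMod p) * ((m : ZMod p) + 1)
      = ((2 * m).choose m : ZMod p) * (m : ZMod p) := by exact_mod_cast congrArg (Nat.cast) h1
  have h4 : ((2 * m).choose m : ZMod p) = 0 := by
    rw [← h2] at h3
    linear_combination h3
  rw [ZMod.natCast_eq_zero_iff] at h4
  have h5 : (2 * m).choose m ∣ (2 * m).factorial :=
    ⟨m.factorial * (2 * m - m).factorial, by
      rw [← mul_assoc]; exact (Nat.choose_mul_factorial_mul_factorial (by omega)).symm⟩
  have := (hp.dvd_factorial).1 (h4.trans h5)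
  omega

/-- Restricted sumset bound (Erdős–Heilbronn type) `|A +^ A| ≥ 2|A| - 3` when `2|A| - 3 ≤ p`. -/
theorem restricted_sumset {p : ℕ} [Fact p.Prime] (A : Finset (ZMod p)) (hA : 2 ≤ A.card)
    (hp : 2 * A.card ≤ p + 3) :
    2 * A.card - 3 ≤
      (((A ×ˢ A).filter (fun x => x.1 ≠ x.2)).image (fun x => x.1 + x.2)).card := by
  classical
  by_contra hcon
  push Not at hcon
  set D := ((A ×ˢ A).filter (fun x => x.1 ≠ x.2)).image (fun x => x.1 + x.2) with hD
  obtain ⟨m, hm⟩ : ∃ m, A.card = m + 2 := ⟨A.card - 2, by omega⟩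
  have hDc : D.card ≤ 2 * m := by omega
  have hpp : p.Prime := Fact.out
  have hmp : 2 * m < p := by omega
  -- the univariate polynomial
  set P : Polynomial (ZMod p) :=
    (∏ c ∈ D, (Polynomial.X - Polynomial.C c)) * Polynomial.X ^ (2 * m - D.card) with hP
  have hPm : P.Monic :=
    (Polynomial.monic_prod_of_monic _ _ (fun c _ => Polynomial.monic_X_sub_C c)).mul
      (Polynomial.monic_X_pow _)
  have hPd : P.natDegree = 2 * m := by
    rw [hP, Polynomial.Monic.natDegree_mul
      (Polynomial.monic_prod_of_monic _ _ (fun c _ => Polynomial.monic_X_sub_C c))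
      (Polynomial.monic_X_pow _), Polynomial.natDegree_X_pow,
      Polynomial.natDegree_prod_of_monic _ _ (fun c _ => Polynomial.monic_X_sub_C c)]
    simp; omega
  have hPe : ∀ c ∈ D, P.eval c = 0 := by
    intro c hc
    rw [hP, Polynomial.eval_mul, Polynomial.eval_prod, Finset.prod_eq_zero hc (by simp), zero_mul]
  set f : MvPolynomial (Fin 2) (ZMod p) :=
    ∑ k ∈ Finset.range (2 * m + 1), C (P.coeff k) * ((X 0 - X 1) * (X 0 + X 1) ^ k) with hf
  have hcoeff : coeff (ex (m + 1) m) f ≠ 0 := by
    rw [hf, coeff_sum]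
    simp only [coeff_C_mul, coeff_main]
    rw [Finset.sum_eq_single (2 * m)]
    · rw [if_pos rfl, ← hPd, hPm.coeff_natDegree, one_mul, hPd]
      exact choose_sub_ne_zero hmp
    · intro b _ hb
      rw [if_neg hb, mul_zero]
    · intro h'
      exact absurd (Finset.mem_range.2 (by omega)) h'
  have hdeg : f.totalDegree ≤ 2 * m + 1 := by
    apply totalDegree_finsetSum_le
    intro k hk
    rw [Finset.mem_range] at hk
    refine (totalDegree_mul _ _).trans ?_
    rw [totalDegree_C, zero_add]
    refine (totalDegree_mul _ _).trans ?_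
    have h1 : (X 0 - X 1 : MvPolynomial (Fin 2) (ZMod p)).totalDegree ≤ 1 := by
      refine (totalDegree_sub _ _).trans ?_
      simp [totalDegree_X]
    have h2 : ((X 0 + X 1 : MvPolynomial (Fin 2) (ZMod p)) ^ k).totalDegree ≤ k := by
      refine (totalDegree_pow _ _).trans ?_
      have : (X 0 + X 1 : MvPolynomial (Fin 2) (ZMod p)).totalDegree ≤ 1 := by
        refine (totalDegree_add _ _).trans ?_
        simp [totalDegree_X]
      nlinarith
    omega
  have hexdeg : (ex (m + 1) m).degree = 2 * m + 1 := by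
    simp only [ex, map_add, Finsupp.degree_single]; ring
  have hdeg' : f.totalDegree = (ex (m + 1) m).degree := by
    apply le_antisymm
    · rw [hexdeg]; exact hdeg
    · have := le_totalDegree (MvPolynomial.mem_support_iff.2 hcoeff)
      rw [Finsupp.degree_eq_sum]
      simpa [Finsupp.sum_fintype] using this
  obtain ⟨a0, ha0⟩ : A.Nonempty := by rw [← Finset.card_pos]; omega
  obtain ⟨s, hs, hs'⟩ := combinatorial_nullstellensatz_exists_eval_nonzero f (ex (m + 1) m) hcoeff hdeg'
    (fun i => if i = 0 then A else A.erase a0) (by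
      intro i
      fin_cases i
      · simp [ex_apply0, hm]
      · simp [ex_apply1, hm, ha0])
  apply hs'
  have hs0 : s 0 ∈ A := by simpa using hs 0
  have hs1 : s 1 ∈ A := by
    have := hs 1
    simp at this
    exact this.2
  have hev : eval s f = (s 0 - s 1) * P.eval (s 0 + s 1) := by
    rw [Polynomial.eval_eq_sum_range, hPd, hf, map_sum, Finset.mul_sum]
    apply Finset.sum_congr rfl
    intro k _
    simp
    ring
  rw [hev]
  by_cases h01 : s 0 = s 1
  · rw [h01]; ring
  · rw [hPe, mul_zero]
    rw [hD, Finset.mem_image]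
    exact ⟨(s 0, s 1), Finset.mem_filter.2 ⟨Finset.mem_product.2 ⟨hs0, hs1⟩, h01⟩, rfl⟩

end Pool.Agent.Lib.P6ea067
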