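import Mathlib
import Pool.Agent.Lib.P6ea067.RestrictedSumset

open scoped Pointwise

namespace Pool.Agent.Lib.P6ea067

/-- the sign conditions for a set without a signed 3-fold zero sum -/
def SF {p : ℕ} (A : Finset (ZMod p)) : Prop :=
  ∀ a ∈ A, ∀ b ∈ A, ∀ c ∈ A, a ≠ b → a ≠ c → b ≠ c →
    a + b + c ≠ 0 ∧ a + b - c ≠ 0 ∧ a - b + c ≠ 0 ∧ a - b - c ≠ 0

variable {p : ℕ} [hp : Fact p.Prime]

private lemma ne_neg_self' (h5 : 5 ≤ p) {x : ZMod p} (hx : x ≠ 0) : x ≠ -x := by
  have hpp := hp.out
  intro h
  have h2 : (2 : ZMod p) * x = 0 := by linear_combination h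
  rcases mul_eq_zero.1 h2 with h | h
  · have : ((2 : ℕ) : ZMod p) = 0 := by exact_mod_cast h
    rw [ZMod.natCast_eq_zero_iff] at this
    have := Nat.le_of_dvd (by norm_num) this
    omega
  · exact hx h

private lemma three_mul_ne_zero (h5 : 5 ≤ p) {x : ZMod p} (hx : x ≠ 0) : 3 * x ≠ 0 := by
  have hpp := hp.out
  intro h2
  rcases mul_eq_zero.1 h2 with h | h
  · have : ((3 : ℕ) : ZMod p) = 0 := by exact_mod_cast h
    rw [ZMod.natCast_eq_zero_iff] at this
    have := Nat.le_of_dvd (by norm_num) this
    omega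
  · exact hx h

private lemma mem_sym {A : Finset (ZMod p)} {x : ZMod p} (hx : x ∈ A ∪ -A) :
    ∃ a ∈ A, x = a ∨ x = -a := by
  rcases Finset.mem_union.1 hx with h | h
  · exact ⟨x, h, Or.inl rfl⟩
  · exact ⟨-x, by simpa using h, Or.inr (by simp)⟩

private lemma key {A : Finset (ZMod p)} (h5 : 5 ≤ p) (h0 : (0 : ZMod p) ∉ A) (hA : SF A)
    {x y z : ZMod p} (hx : x ∈ A ∪ -A) (hy : y ∈ A ∪ -A) (hz : z ∈ A ∪ -A)
    (hxyz : x + y = z) (hxy : x ≠ y) : z ∉ A ∩ -A ∧ (x = -z ∨ y = -z) := by
  have h0' : ∀ w ∈ A ∪ -A, w ≠ 0 := by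
    intro w hw hw0
    subst hw0
    obtain ⟨a, ha, h | h⟩ := mem_sym hw
    · rw [← h] at ha; exact h0 ha
    · have : a = 0 := by linear_combination h
      rw [this] at ha; exact h0 ha
  have hx0 := h0' x hx
  have hy0 := h0' y hy
  have hz0 := h0' z hz
  have hxny : x ≠ -y := by
    rintro rfl; apply hz0; rw [← hxyz]; ring
  -- first: x = -z or y = -z
  have step1 : x = -z ∨ y = -z := by
    by_contra hcon
    push Not at hcon
    obtain ⟨hxz, hyz⟩ := hcon
    have hxz' : x ≠ z := by
      intro h; apply hy0; linear_combination hxyz - h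
    have hyz' : y ≠ z := by
      intro h; apply hx0; linear_combination hxyz - h
    obtain ⟨a, ha, hxa⟩ := mem_sym hx
    obtain ⟨b, hb, hyb⟩ := mem_sym hy
    obtain ⟨c, hc, hzc⟩ := mem_sym hz
    have hab : a ≠ b := by
      rintro rfl
      rcases hxa with h | h <;> rcases hyb with h' | h' <;> subst h <;> subst h' <;> simp_all
    have hac : a ≠ c := by
      rintro rfl
      rcases hxa with h | h <;> rcases hzc with h' | h' <;> subst h <;> subst h' <;> simp_all
    have hbc : b ≠ c := by
      rintro rfl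
      rcases hyb with h | h <;> rcases hzc with h' | h' <;> subst h <;> subst h' <;> simp_all
    obtain ⟨H1, H2, H3, H4⟩ := hA a ha b hb c hc hab hac hbc
    rcases hxa with h | h <;> rcases hyb with h' | h' <;> rcases hzc with h'' | h'' <;>
      subst h <;> subst h' <;> subst h''
    · exact H2 (by linear_combination hxyz)
    · exact H1 (by linear_combination hxyz)
    · exact H4 (by linear_combination hxyz)
    · exact H3 (by linear_combination hxyz)
    · exact H3 (by linear_combination -hxyz)
    · exact H4 (by linear_combination -hxyz)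
    · exact H1 (by linear_combination -hxyz)
    · exact H2 (by linear_combination -hxyz)
  refine ⟨?_, step1⟩
  intro hzS
  rw [Finset.mem_inter, Finset.mem_neg'] at hzS
  obtain ⟨hzA, hnzA⟩ := hzS
  -- w := the other one equals 2z
  have hex : ∃ w ∈ A ∪ -A, w = 2 * z := by
    rcases step1 with h | h
    · exact ⟨y, hy, by linear_combination hxyz - h⟩
    · exact ⟨x, hx, by linear_combination hxyz - h⟩
  obtain ⟨w, hw, hwz⟩ := hex
  obtain ⟨b, hb, hwb⟩ := mem_sym hw
  have h3 := three_mul_ne_zero h5 hz0
  have hne := ne_neg_self' h5 hz0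
  have hzb : z ≠ b := by
    rintro rfl
    rcases hwb with h | h
    · exact hz0 (by linear_combination h - hwz)
    · exact h3 (by linear_combination h - hwz)
  have hnzb : -z ≠ b := by
    rintro rfl
    rcases hwb with h | h
    · exact h3 (by linear_combination h - hwz)
    · exact hz0 (by linear_combination h - hwz)
  obtain ⟨H1, H2, H3, H4⟩ := hA z hzA (-z) hnzA b hb hne hzb hnzb
  rcases hwb with h | h
  · exact H4 (by linear_combination h - hwz)
  · exact H3 (by linear_combination h - hwz)


private lemma sym_zero_notMem {A : Finset (ZMod p)} (h0 : (0 : ZMod p) ∉ A) :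
    (0 : ZMod p) ∉ A ∪ -A := by
  rw [Finset.mem_union, Finset.mem_neg', neg_zero]
  tauto

private lemma card_union_neg (A : Finset (ZMod p)) :
    (A ∪ -A).card + (A ∩ -A).card = 2 * A.card := by
  rw [Finset.card_union_add_card_inter, Finset.card_neg]; ring

/-- the symmetric case -/
private lemma bound_sym {A : Finset (ZMod p)} (h5 : 5 ≤ p) (h0 : (0 : ZMod p) ∉ A) (hA : SF A)
    (hne : A.Nonempty) (hS : A ∩ -A = A) : 3 * A.card ≤ p + 1 := by
  have hsub : A ⊆ -A := Finset.inter_eq_left.1 hS
  have hmem : ∀ x ∈ A, -x ∈ A := fun x hx => by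
    have := hsub hx
    rwa [Finset.mem_neg'] at this
  have hdisj : Disjoint (A + A) A := by
    rw [Finset.disjoint_left]
    intro z hz hzA
    obtain ⟨x, hx, y, hy, hxy⟩ := Finset.mem_add.1 hz
    by_cases h : x = y
    · subst h
      have hx0 : x ≠ 0 := fun h => h0 (h ▸ hx)
      have h1 := ne_neg_self' h5 hx0
      have h2 : x ≠ z := by
        rintro rfl; apply hx0; linear_combination hxy
      have h3 : -x ≠ z := by
        rintro rfl; exact three_mul_ne_zero h5 hx0 (by linear_combination hxy)
      exact (hA x hx (-x) (hmem x hx) z hzA h1 h2 h3).2.2.2 (by linear_combination hxy)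
    · have := (key h5 h0 hA (Finset.mem_union_left _ hx) (Finset.mem_union_left _ hy)
        (Finset.mem_union_left _ hzA) hxy h).1
      rw [hS] at this
      exact this hzA
  have h1 : (A + A).card + A.card ≤ p := by
    rw [← Finset.card_union_of_disjoint hdisj]
    calc _ ≤ (Finset.univ : Finset (ZMod p)).card := Finset.card_le_univ _
      _ = p := by rw [Finset.card_univ, ZMod.card]
  have h2 := ZMod.cauchy_davenport hp.out hne hne
  have h3 : 1 ≤ A.card := hne.card_pos
  omega

/-- representation count: `2|B| ≤ p + 3` -/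
private lemma bound_B {A : Finset (ZMod p)} (h5 : 5 ≤ p) (h0 : (0 : ZMod p) ∉ A) (hA : SF A)
    (hne : A.Nonempty) : 2 * (A ∪ -A).card ≤ p + 3 := by
  obtain ⟨z, hz⟩ := hne
  have hzB : z ∈ A ∪ -A := Finset.mem_union_left _ hz
  set B := A ∪ -A with hB
  have h1 : (B ∩ B.image (fun y => z - y)) ⊆ {z / 2, -z, 2 * z} := by
    intro x hx
    rw [Finset.mem_inter, Finset.mem_image] at hx
    obtain ⟨hxB, y, hyB, hy⟩ := hx
    have hsum : x + y = z := by rw [← hy]; ring
    simp only [Finset.mem_insert, Finset.mem_singleton]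
    by_cases hxy : x = y
    · left
      subst hxy
      have h2 : (2 : ZMod p) ≠ 0 := by
        intro h
        have : ((2 : ℕ) : ZMod p) = 0 := by exact_mod_cast h
        rw [ZMod.natCast_eq_zero_iff] at this
        have := Nat.le_of_dvd (by norm_num) this
        omega
      field_simp
      linear_combination hsum
    · right
      rcases (key h5 h0 hA hxB hyB hzB hsum hxy).2 with h | h
      · left; exact h
      · right; linear_combination hsum - h
  have h2 : (B ∩ B.image (fun y => z - y)).card ≤ 3 :=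
    (Finset.card_le_card h1).trans Finset.card_le_three
  have h3 : (B.image (fun y => z - y)).card = B.card :=
    Finset.card_image_of_injective _ (fun a b h => by simpa using h)
  have h4 := Finset.card_union_add_card_inter B (B.image (fun y => z - y))
  have h5' : (B ∪ B.image (fun y => z - y)).card ≤ p := by
    calc _ ≤ (Finset.univ : Finset (ZMod p)).card := Finset.card_le_univ _
      _ = p := by rw [Finset.card_univ, ZMod.card]
  omega

private lemma bound_main {A : Finset (ZMod p)} (h5 : 5 ≤ p) (h0 : (0 : ZMod p) ∉ A) (hA : SF A)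
    (hne : A.Nonempty) : 4 * A.card ≤ p + 3 + (A ∩ -A).card := by
  have hB := bound_B h5 h0 hA hne
  have hcard := card_union_neg A
  have h0B := sym_zero_notMem h0
  set B := A ∪ -A with hBdef
  set S := A ∩ -A with hSdef
  have hB2 : 2 ≤ B.card := by
    obtain ⟨a, ha⟩ := hne
    have ha0 : a ≠ 0 := fun h => h0 (h ▸ ha)
    have : ({a, -a} : Finset (ZMod p)) ⊆ B := by
      intro x hx
      simp only [Finset.mem_insert, Finset.mem_singleton] at hx
      rcases hx with rfl | rfl
      · exact Finset.mem_union_left _ ha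
      · exact Finset.mem_union_right _ (by simpa using ha)
    calc 2 = ({a, -a} : Finset (ZMod p)).card := (Finset.card_pair (ne_neg_self' h5 ha0)).symm
      _ ≤ B.card := Finset.card_le_card this
  have hEH := restricted_sumset B hB2 hB
  set D := ((B ×ˢ B).filter (fun x => x.1 ≠ x.2)).image (fun x => x.1 + x.2) with hD
  set N := D.erase 0 with hN
  have hNc : 2 * B.card - 3 ≤ N.card + 1 := by
    have : D.card - 1 ≤ N.card := by rw [hN]; exact Finset.pred_card_le_card_erase
    omega
  have hcap : N ∩ B ⊆ B \ S := by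
    intro z hz
    rw [Finset.mem_inter, hN, Finset.mem_erase, hD, Finset.mem_image] at hz
    obtain ⟨⟨hz0, ⟨⟨x, y⟩, hxy, hsum⟩⟩, hzB⟩ := hz
    rw [Finset.mem_filter, Finset.mem_product] at hxy
    rw [Finset.mem_sdiff]
    exact ⟨hzB, (key h5 h0 hA hxy.1.1 hxy.1.2 hzB hsum hxy.2).1⟩
  have hcup : (N ∪ B).card ≤ p - 1 := by
    have : N ∪ B ⊆ (Finset.univ : Finset (ZMod p)).erase 0 := by
      intro z hz
      rw [Finset.mem_erase]
      refine ⟨?_, Finset.mem_univ _⟩
      rintro rfl
      rcases Finset.mem_union.1 hz with h | h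
      · exact (Finset.mem_erase.1 h).1 rfl
      · exact h0B h
    calc _ ≤ ((Finset.univ : Finset (ZMod p)).erase 0).card := Finset.card_le_card this
      _ = p - 1 := by rw [Finset.card_erase_of_mem (Finset.mem_univ _), Finset.card_univ, ZMod.card]
  have hSB : S ⊆ B := fun x hx => Finset.mem_union_left _ (Finset.mem_inter.1 hx).1
  have hsd : (B \ S).card = B.card - S.card := Finset.card_sdiff_of_subset hSB
  have hcap' := Finset.card_le_card hcap
  have hSBc := Finset.card_le_card hSB
  have hui := Finset.card_union_add_card_inter N B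
  omega

/-- Upper bound: away from `0`. -/
theorem bound_of_zero_notMem {A : Finset (ZMod p)} (h5 : 5 ≤ p) (h0 : (0 : ZMod p) ∉ A)
    (hA : SF A) : 3 * A.card ≤ p + 2 := by
  rcases A.eq_empty_or_nonempty with rfl | hne
  · simp
  by_cases hS : A ∩ -A = A
  · have := bound_sym h5 h0 hA hne hS
    omega
  · have h1 := bound_main h5 h0 hA hne
    have h2 : (A ∩ -A).card < A.card :=
      Finset.card_lt_card ⟨Finset.inter_subset_left, fun h => hS (le_antisymm Finset.inter_subset_left h)⟩
    omega

/-- Upper bound: with `0`. -/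
theorem bound_of_zero_mem {A : Finset (ZMod p)} (h5 : 5 ≤ p) (h0 : (0 : ZMod p) ∈ A)
    (hA : SF A) : 4 * A.card ≤ p + 7 := by
  set A' := A.erase 0 with hA'
  have hcard : A'.card + 1 = A.card := Finset.card_erase_add_one h0
  rcases A'.eq_empty_or_nonempty with he | hne
  · rw [he] at hcard; simp at hcard; omega
  have h0' : (0 : ZMod p) ∉ A' := Finset.notMem_erase 0 A
  have hSF' : SF A' := by
    intro a ha b hb c hc
    exact hA a (Finset.mem_of_mem_erase ha) b (Finset.mem_of_mem_erase hb) c (Finset.mem_of_mem_erase hc)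
  have hS : A' ∩ -A' = ∅ := by
    rw [Finset.eq_empty_iff_forall_notMem]
    intro x hx
    rw [Finset.mem_inter, Finset.mem_neg'] at hx
    obtain ⟨hx1, hx2⟩ := hx
    have hx0 : x ≠ 0 := (Finset.mem_erase.1 hx1).1
    have := hA x (Finset.mem_of_mem_erase hx1) (-x) (Finset.mem_of_mem_erase hx2) 0 h0
      (ne_neg_self' h5 hx0) hx0 (by simpa using hx0)
    exact this.1 (by ring)
  have h1 := bound_main h5 h0' hSF' hne
  rw [hS, Finset.card_empty] at h1
  omega

end Pool.Agent.Lib.P6ea067
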